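import Pool.Agent.H352R4.CA.End

/-!
# Continuous analytic capacity is subadditive (MP_f6d4b0_an, Q1: full answer)

`α(E₁ ∪ E₂) ≤ α(E₁) + α(E₂)` for all compact sets `E₁`, `E₂` of the plane.
-/

set_option autoImplicit false

open Filter Topology

namespace Pool.Agent.Results.MP_f6d4b0_an.Subadditive

/-- the numbers `|lim z f(z)|` over all compact `F ⊆ M` and all `f` continuous on the plane,
bounded by `1`, holomorphic off `F`, vanishing at infinity -/
def values (M : Set ℂ) : Set ℝ :=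
  {c | ∃ (F : Set ℂ) (f : ℂ → ℂ) (l : ℂ), IsCompact F ∧ F ⊆ M ∧ Continuous f ∧
    (∀ z, ‖f z‖ ≤ 1) ∧ DifferentiableOn ℂ f Fᶜ ∧ Tendsto f (cocompact ℂ) (𝓝 0) ∧
    Tendsto (fun z => z * f z) (cocompact ℂ) (𝓝 l) ∧ c = ‖l‖}

/-- continuous analytic capacity -/
noncomputable def continuousCapacity (M : Set ℂ) : ℝ := sSup (values M)

open Pool.Agent.H352R4.CA in
theorem continuousCapacity_eq {M : Set ℂ} (hM : IsCompact M) :
    continuousCapacity M = alpha M := by
  unfold continuousCapacity alpha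
  congr 1
  ext c
  constructor
  · rintro ⟨F, f, l, hF, hFM, h1, h2, h3, h4, h5, rfl⟩
    exact ⟨f, l, ⟨h1, h3.mono (Set.compl_subset_compl.2 hFM), h5⟩, h2, rfl⟩
  · rintro ⟨f, l, H, hb, rfl⟩
    exact ⟨M, f, l, hM, subset_rfl, H.cont, hb, H.hol, H.zero, H.lim, rfl⟩

theorem result (E₁ E₂ : Set ℂ) (h₁ : IsCompact E₁) (h₂ : IsCompact E₂) :
    continuousCapacity (E₁ ∪ E₂) ≤ continuousCapacity E₁ + continuousCapacity E₂ := by
  rw [continuousCapacity_eq (h₁.union h₂), continuousCapacity_eq h₁, continuousCapacity_eq h₂]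
  exact Pool.Agent.H352R4.CA.alpha_union_le h₁ h₂

end Pool.Agent.Results.MP_f6d4b0_an.Subadditive
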